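import Pool.Agent.helper94.PL.Spec

set_option autoImplicit false

open Complex Metric Set Filter Topology MeasureTheory MPS
open Pool.Agent.helper16.Multibrot

noncomputable section

namespace PLY

theorem BGR_tendsto (n : ℕ) (E : ℂ → ℂ) (hn : 2 ≤ n) (hc : ContinuousAt E 0) (h1 : E 0 = 1)
    (w : ℂ) (hw : 1 < ‖w‖) : Tendsto (fun j : ℕ => ‖E (w ^ (n ^ j))⁻¹‖) atTop (𝓝 1) := by
  have ht : Tendsto (fun j : ℕ => (w ^ (n ^ j))⁻¹) atTop (𝓝 0) := by
    rw [tendsto_zero_iff_norm_tendsto_zero]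
    have e : (fun j : ℕ => ‖(w ^ (n ^ j))⁻¹‖) = (fun k : ℕ => (‖w‖⁻¹) ^ k) ∘ (fun j : ℕ => n ^ j) := by
      funext j
      simp only [Function.comp, norm_inv, norm_pow, inv_pow]
    rw [e]
    refine Tendsto.comp ?_ (tendsto_pow_atTop_atTop_of_one_lt (by omega))
    exact tendsto_pow_atTop_nhds_zero_of_lt_one (by positivity) (inv_lt_one_of_one_lt₀ hw)
  have h2 : Tendsto (fun j : ℕ => ‖E (w ^ (n ^ j))⁻¹‖) atTop (𝓝 ‖E 0‖) :=
    (hc.tendsto.comp ht).norm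
  rwa [h1, norm_one] at h2

theorem BGR (hESC : ESC_stmt) (hBIT : BIT_stmt) : BGR_stmt := by
  intro n c E hn hc hBE w hw
  by_cases hx : ‖chi E w‖ < 4
  · have : (4 : ℝ) ≤ 4 * ‖w‖ := by linarith
    linarith
  · have hx4 : 4 ≤ ‖chi E w‖ := not_lt.1 hx
    have hcont : ContinuousAt E 0 :=
      (hBE.hol.differentiableAt (isOpen_ball.mem_nhds (mem_ball_self one_pos))).continuousAt
    have ht := BGR_tendsto n E hn hcont hBE.one w hw
    have hev : ∀ᶠ j : ℕ in atTop, ‖E (w ^ (n ^ j))⁻¹‖ < 2 := by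
      have := ht.eventually (Iio_mem_nhds (show (1 : ℝ) < 2 by norm_num))
      exact this
    obtain ⟨j, hj⟩ := hev.exists
    have h1 := hESC n c (chi E w) j hn hc hx4
    rw [(hBIT n c E hn hBE w hw).1 j] at h1
    have h2 : ‖chi E (w ^ (n ^ j))‖ ≤ 2 * ‖w‖ ^ (n ^ j) := by
      unfold chi
      rw [norm_mul, norm_pow]
      have h3 : (0 : ℝ) ≤ ‖w‖ ^ (n ^ j) := by positivity
      nlinarith
    have h4 : (‖chi E w‖ / 2) ^ (n ^ j) ≤ ‖w‖ ^ (n ^ j) := by linarith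
    have h5 : ‖chi E w‖ / 2 ≤ ‖w‖ := by
      refine le_of_pow_le_pow_left₀ ?_ (norm_nonneg w) h4
      exact pow_ne_zero _ (by omega)
    have h6 : 0 ≤ ‖w‖ := norm_nonneg w
    linarith

end PLY
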